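import Pool.Agent.Helper61.SS.Goals

/-!
# Packet SS-CROSS: the projective norm is a cross norm
-/

set_option autoImplicit false

namespace Pool.Agent.Helper91.SS

open TensorProduct Filter Topology Pool.Agent.Helper61.SS

universe u v w

theorem pn_tmul {A : Type u} {B : Type v} [NormedAddCommGroup A] [NormedSpace ℂ A]
    [NormedAddCommGroup B] [NormedSpace ℂ B] (a : A) (b : B) :
    pn (a ⊗ₜ[ℂ] b) = ‖a‖ * ‖b‖ := by
  apply le_antisymm
  · apply csInf_le
    · refine ⟨0, ?_⟩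
      rintro r ⟨n, x, y, -, rfl⟩
      positivity
    · exact ⟨1, fun _ => a, fun _ => b, by simp, by simp⟩
  · apply le_csInf
    · exact ⟨_, 1, fun _ => a, fun _ => b, by simp, rfl⟩
    · rintro r ⟨n, x, y, hxy, rfl⟩
      obtain ⟨f, hf, hfa⟩ := exists_dual_vector'' ℂ a
      obtain ⟨g, hg, hgb⟩ := exists_dual_vector'' ℂ b
      let F : A ⊗[ℂ] B →ₗ[ℂ] ℂ :=
        TensorProduct.lift ((LinearMap.mul ℂ ℂ).compl₁₂ (f : A →ₗ[ℂ] ℂ) (g : B →ₗ[ℂ] ℂ))
      have hF : ∀ (p : A) (q : B), F (p ⊗ₜ[ℂ] q) = f p * g q := by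
        intro p q
        simp [F]
      have h1 : F (a ⊗ₜ[ℂ] b) = ∑ i, f (x i) * g (y i) := by
        rw [hxy, map_sum]
        exact Finset.sum_congr rfl (fun i _ => hF _ _)
      have h2 : ‖a‖ * ‖b‖ = ‖F (a ⊗ₜ[ℂ] b)‖ := by
        rw [hF, hfa, hgb, norm_mul]
        simp
      rw [h2, h1]
      refine (norm_sum_le _ _).trans (Finset.sum_le_sum fun i _ => ?_)
      rw [norm_mul]
      refine mul_le_mul ?_ ?_ (norm_nonneg _) (norm_nonneg _)
      · exact (f.le_opNorm (x i)).trans (mul_le_of_le_one_left (norm_nonneg _) hf)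
      · exact (g.le_opNorm (y i)).trans (mul_le_of_le_one_left (norm_nonneg _) hg)

theorem gCROSS : Pool.Agent.Helper61.SS.G_CROSS.{u, v, w} := by
  intro A B C _ _ _ _ _ _ j hj a b
  have h := hj.norm (a ⊗ₜ[ℂ] b)
  rw [TensorProduct.lift.tmul] at h
  rw [h, pn_tmul]

end Pool.Agent.Helper91.SS
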